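import Pool.Agent.Helper75.CR.St

/-!
Module L2 of project CR (MP_265e56_al): words modulo a completely regular congruence.
-/

set_option autoImplicit false

namespace Pool.Agent.Helper52.CR

open Pool.Agent.Helper75.CR Helper1.IM

theorem hL2 (hL1 : StL1) : StL2 := by
  intro B S ρ hC u t hu ht
  have huu : Jl ρ u u := ⟨[], [], ρ.of_eq (by simp)⟩
  have hJ : ∀ t : Wo B, (∀ a ∈ t, Jl ρ u [a]) → t ≠ [] → Jl ρ u t := by
    intro t
    induction t with
    | nil =>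
      intro _ h
      exact absurd rfl h
    | cons a t ih =>
      intro h _
      by_cases h0 : t = []
      · subst h0
        exact h a (by simp)
      · have h1 := ih (fun b hb => h b (by simp [hb])) h0
        have h2 := hL1 B S ρ hC u [a] t hu (by simp) h0 (h a (by simp)) h1
        exact h2
  refine ⟨?_, ?_, hJ t ht⟩
  · by_cases h0 : t = []
    · subst h0
      exact ⟨[], ρ.of_eq (by simp)⟩
    · obtain ⟨a, d, h⟩ := hL1 B S ρ hC u u t hu hu h0 huu (hJ t ht h0)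
      obtain ⟨⟨b, hb⟩, _⟩ := hC (t ++ d) (by simp [h0])
      have e1 : ρ.r u (a ++ u ++ (t ++ d)) := ρ.trans' h (ρ.of_eq (by simp [List.append_assoc]))
      have e2 : ρ.r u (a ++ u ++ ((t ++ d) ++ (t ++ d) ++ b)) := ρ.trans' e1 (ρ.mulL _ hb)
      have e3 : ρ.r (a ++ u ++ ((t ++ d) ++ (t ++ d) ++ b)) (u ++ ((t ++ d) ++ b)) :=
        ρ.trans' (ρ.of_eq (by simp [List.append_assoc])) (ρ.mulR ((t ++ d) ++ b) (ρ.symm' e1))
      exact ⟨d ++ b, ρ.trans' e2 (ρ.trans' e3 (ρ.of_eq (by simp [List.append_assoc])))⟩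
  · by_cases h0 : t = []
    · subst h0
      exact ⟨[], ρ.of_eq (by simp)⟩
    · obtain ⟨a, d, h⟩ := hL1 B S ρ hC u t u hu h0 hu (hJ t ht h0) huu
      obtain ⟨_, b, hb⟩ := hC (a ++ t) (by simp [h0])
      have e1 : ρ.r u ((a ++ t) ++ (u ++ d)) := ρ.trans' h (ρ.of_eq (by simp [List.append_assoc]))
      have e2 : ρ.r u ((b ++ (a ++ t) ++ (a ++ t)) ++ (u ++ d)) := ρ.trans' e1 (ρ.mulR _ hb)
      have e3 : ρ.r ((b ++ (a ++ t) ++ (a ++ t)) ++ (u ++ d)) ((b ++ (a ++ t)) ++ u) :=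
        ρ.trans' (ρ.of_eq (by simp [List.append_assoc])) (ρ.mulL (b ++ (a ++ t)) (ρ.symm' e1))
      exact ⟨b ++ a, ρ.trans' e2 (ρ.trans' e3 (ρ.of_eq (by simp [List.append_assoc])))⟩

end Pool.Agent.Helper52.CR
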